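import Pool.Agent.Work.MP_db9399_bg.Base
import Pool.Agent.Work.MP_db9399_exp_helper59.UCOL

/-!
# MP_db9399, THEOREM BIG, block UCL (helper99): random system of neighbours for all colours
(as UCOL of helper59, roles of colours and neighbours exchanged)
-/

set_option autoImplicit false

namespace Pool.Agent.Work.MP_db9399_bg.helper99

open Finset Classical
open Pool.Agent.Work.MP_db9399_all (nb pr DepOnI PackI)
open Pool.Agent.Work.MP_db9399_bg

universe u v

namespace UCL

/-- Koenig: `D` disjoint choices from the lists -/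
theorem sel {X : Type u} {Y : Type v} (D : ℕ) (S : Finset X)
    (L : X → Finset Y) (hL : ∀ w ∈ S, (L w).card = D)
    (hb : ∀ b, (S.filter (fun w => b ∈ L w)).card ≤ D) :
    ∃ t : Fin D → X → Option Y, (∀ j, ∀ w ∈ S, ∃ b ∈ L w, t j w = some b) ∧
      (∀ j, ∀ w ∈ S, ∀ w' ∈ S, t j w = t j w' → w = w') ∧
      ∀ w ∈ S, Function.Injective (fun j => t j w) := by
  set Ed : Finset (X × Y) := S.biUnion (fun w => (L w).image (fun b => (w, b))) with hEd
  have memEd : ∀ w b, (w, b) ∈ Ed ↔ w ∈ S ∧ b ∈ L w := by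
    intro w b
    rw [hEd, mem_biUnion]
    constructor
    · rintro ⟨w', hw', h⟩
      obtain ⟨b', hb', h'⟩ := mem_image.1 h
      rw [Prod.mk.injEq] at h'
      rw [← h'.1, ← h'.2]
      exact ⟨hw', hb'⟩
    · rintro ⟨h1, h2⟩
      exact ⟨w, h1, mem_image.2 ⟨b, h2, rfl⟩⟩
  obtain ⟨κ, hκ1, hκ2⟩ := _root_.MP_db9399_co.konig (E := X × Y) Prod.fst Prod.snd D Ed
    (by
      intro v
      by_cases hv : v ∈ S
      · have : Ed.filter (fun e => e.1 = v) ⊆ (L v).image (fun b => (v, b)) := by
          rintro ⟨a, b⟩ he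
          rw [mem_filter, memEd] at he
          rw [mem_image]
          obtain ⟨⟨h1, h2⟩, h3⟩ := he
          simp only at h3
          subst h3
          exact ⟨b, h2, rfl⟩
        refine (card_le_card this).trans (card_image_le.trans (hL v hv).le)
      · have : Ed.filter (fun e => e.1 = v) = ∅ := by
          apply filter_eq_empty_iff.2
          rintro ⟨a, b⟩ he hev
          rw [memEd] at he
          exact hv (hev ▸ he.1)
        rw [this]; simp)
    (by
      intro b
      have : Ed.filter (fun e => e.2 = b) ⊆ (S.filter (fun w => b ∈ L w)).image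
          (fun w => (w, b)) := by
        rintro ⟨a, b'⟩ he
        rw [mem_filter, memEd] at he
        obtain ⟨⟨h1, h2⟩, h3⟩ := he
        simp only at h3
        subst h3
        rw [mem_image]
        exact ⟨a, mem_filter.2 ⟨h1, h2⟩, rfl⟩
      exact (card_le_card this).trans (card_image_le.trans (hb b)))
  -- every class saturates every vertex of S
  have key : ∀ w, ∀ j : Fin D, ∃ b : Option Y, w ∈ S → ∃ b' ∈ L w, b = some b' ∧ κ (w, b') = j := by
    intro w j
    by_cases hw : w ∈ S
    · have hinj : Set.InjOn (fun b => κ (w, b)) (L w : Set Y) := by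
        intro b hb' b' hb'' h
        by_contra hne
        have m1 : (w, b) ∈ Ed := (memEd w b).2 ⟨hw, hb'⟩
        have m2 : (w, b') ∈ Ed := (memEd w b').2 ⟨hw, hb''⟩
        exact hκ2 _ m1 _ m2 (fun h => hne (Prod.ext_iff.1 h).2) (Or.inl rfl) h
      have himg : (L w).image (fun b => κ (w, b)) = range D := by
        apply eq_of_subset_of_card_le
        · intro x hx
          rw [mem_image] at hx
          obtain ⟨b, hb', rfl⟩ := hx
          rw [mem_range]
          exact hκ1 _ ((memEd w b).2 ⟨hw, hb'⟩)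
        · rw [card_range, card_image_of_injOn hinj, hL w hw]
      have : (j : ℕ) ∈ (L w).image (fun b => κ (w, b)) := by
        rw [himg, mem_range]; exact j.2
      rw [mem_image] at this
      obtain ⟨b, h1, h2⟩ := this
      exact ⟨some b, fun _ => ⟨b, h1, rfl, h2⟩⟩
    · exact ⟨none, fun h => absurd h hw⟩
  choose t0 ht0 using key
  refine ⟨fun j w => t0 w j, ?_, ?_, ?_⟩
  · intro j w hw
    obtain ⟨b', h1, h2, -⟩ := ht0 w j hw
    exact ⟨b', h1, h2⟩
  · intro j w hw w' hw' h
    obtain ⟨b, h1, h2, h3⟩ := ht0 w j hw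
    obtain ⟨b', h1', h2', h3'⟩ := ht0 w' j hw'
    simp only at h
    rw [h2, h2', Option.some.injEq] at h
    by_contra hne
    have m1 : (w, b) ∈ Ed := (memEd w b).2 ⟨hw, h1⟩
    have m2 : (w', b') ∈ Ed := (memEd w' b').2 ⟨hw', h1'⟩
    refine hκ2 _ m1 _ m2 (fun h => hne (Prod.ext_iff.1 h).1) (Or.inr h) ?_
    rw [h3, h3']
  · intro w hw j j' h
    obtain ⟨b, h1, h2, h3⟩ := ht0 w j hw
    obtain ⟨b', h1', h2', h3'⟩ := ht0 w j' hw
    simp only at h
    rw [h2, h2', Option.some.injEq] at h
    rw [h] at h3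
    exact Fin.ext (h3.symm.trans h3')

/-- double counting of the paths of length two -/
theorem paths {V : Type u} [Fintype V] (G : SimpleGraph V) (U : Finset V)
    (hU : ∀ v, (nb G v ∩ U).card ≤ 2) (y : V) :
    (∑ u ∈ U, (nb G y ∩ nb G u).card) ≤ 2 * (nb G y).card := by
  have h1 : (∑ u ∈ U, (nb G y ∩ nb G u).card) =
      ∑ w ∈ nb G y, (U.filter (fun u => w ∈ nb G u)).card := by
    have := Finset.sum_card_bipartiteAbove_eq_sum_card_bipartiteBelow (s := U) (t := nb G y)
      (r := fun u w => w ∈ nb G u)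
    simp only [bipartiteAbove, bipartiteBelow] at this
    rw [← this]
    apply Finset.sum_congr rfl
    intro u _
    congr 1
  rw [h1, mul_comm, ← smul_eq_mul]
  apply Finset.sum_le_card_nsmul
  intro w _
  refine le_trans (card_le_card ?_) (hU w)
  intro u hu
  rw [mem_filter, mem_nb] at hu
  rw [mem_inter, mem_nb]
  exact ⟨hu.2.symm, hu.1⟩

end UCL

open UCL in
/-- **UCL** -/
theorem stmt_UCL : Stmt_UCL.{u} := by
  intro c δ hc hδ
  set T : ℝ := min (δ / 8) (1 / 4) with hT
  have hT0 : 0 < T := by rw [hT]; exact lt_min (by linarith) (by norm_num)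
  have hT1 : T ≤ 1 / 4 := min_le_right _ _
  have hT2 : T ≤ δ / 8 := min_le_left _ _
  set K : ℝ := 7680 * Real.exp (4 / c) / (δ ^ 5 * T) with hK
  refine ⟨max 1 ⌈K⌉₊, ?_⟩
  intro V _ G d D k U I Al hd hcd hDd hdeg hU2 hI hAl hgrp
  have hd1 : 1 ≤ d := (le_max_left _ _).trans hd
  have hd1' : (1 : ℝ) ≤ d := by exact_mod_cast hd1
  have hdK : K ≤ (d : ℝ) := by
    refine (Nat.le_ceil K).trans ?_
    exact_mod_cast (le_max_right _ _).trans hd
  have hD0' : (0 : ℝ) < D := lt_of_lt_of_le (by positivity) hcd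
  have hD0 : 0 < D := by exact_mod_cast hD0'
  -- the lists of size exactly D
  have hL : ∀ u b, ∃ L : Finset V, u ∈ U → b ∈ I u → L ⊆ Al u b ∧ L.card = D := by
    intro u b
    by_cases h : u ∈ U ∧ b ∈ I u
    · obtain ⟨L, h1, h2⟩ := exists_subset_card_eq (hAl u h.1 b h.2).2
      exact ⟨L, fun _ _ => ⟨h1, h2⟩⟩
    · exact ⟨∅, fun h1 h2 => absurd ⟨h1, h2⟩ h⟩
  choose L hL using hL
  have hsel : ∀ u, ∃ t : Fin D → Fin k → Option V, u ∈ U →
      (∀ j, ∀ b ∈ I u, ∃ x ∈ L u b, t j b = some x) ∧
      (∀ j, ∀ b ∈ I u, ∀ b' ∈ I u, t j b = t j b' → b = b') ∧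
      ∀ b ∈ I u, Function.Injective (fun j => t j b) := by
    intro u
    by_cases hu : u ∈ U
    · obtain ⟨t, h⟩ := sel D (I u) (L u) (fun b hb => (hL u b hu hb).2)
        (by
          intro x
          refine le_trans (card_le_card ?_) (hgrp u hu x)
          intro b hb
          rw [mem_filter] at hb ⊢
          exact ⟨hb.1, (hL u b hu hb.1).1 hb.2⟩)
      exact ⟨t, fun _ => h⟩
    · exact ⟨fun _ _ => none, fun h => absurd h hu⟩
  choose tt htt using hsel
  -- the value
  set val : V → Fin D → Fin k → V := fun u j b => (tt u j b).getD u with hval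
  have hval1 : ∀ u ∈ U, ∀ j, ∀ b ∈ I u, tt u j b = some (val u j b) ∧ val u j b ∈ L u b := by
    intro u hu j b hb
    obtain ⟨x, hx, h⟩ := (htt u hu).1 j b hb
    simp only [hval, h, Option.getD_some]
    exact ⟨trivial, hx⟩
  have hval2 : ∀ u ∈ U, ∀ j, ∀ b ∈ I u, ∀ b' ∈ I u, val u j b = val u j b' → b = b' := by
    intro u hu j b hb b' hb' h
    apply (htt u hu).2.1 j b hb b' hb'
    rw [(hval1 u hu j b hb).1, (hval1 u hu j b' hb').1, h]
  have hval3 : ∀ u ∈ U, ∀ b ∈ I u, ∀ j j', val u j b = val u j' b → j = j' := by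
    intro u hu b hb j j' h
    apply (htt u hu).2.2 b hb
    simp only
    rw [(hval1 u hu j b hb).1, (hval1 u hu j' b hb).1, h]
  set B : V → Fin k → V → Finset (Fin D) := fun y b u =>
    univ.filter (fun j => b ∈ I u ∧ val u j b ∈ nb G y) with hB
  set Uy : V → Finset V := fun y => U.filter (fun u => (nb G y ∩ nb G u).Nonempty) with hUy
  have hvalnb : ∀ u ∈ U, ∀ j, ∀ b ∈ I u, val u j b ∈ nb G u := fun u hu j b hb =>
    (hAl u hu b hb).1 ((hL u b hu hb).1 (hval1 u hu j b hb).2)
  have hBc : ∀ y b, ∀ u ∈ U, (B y b u).card ≤ (nb G y ∩ nb G u).card := by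
    intro y b u hu
    by_cases hb : b ∈ I u
    · apply card_le_card_of_injOn (fun j => val u j b)
      · intro j hj
        simp only [hB, coe_filter, mem_univ, true_and, Set.mem_ofPred_eq] at hj
        simp only [coe_inter, Set.mem_inter_iff, mem_coe]
        exact ⟨hj.2, hvalnb u hu j b hb⟩
      · intro j _ j' _ h
        exact hval3 u hu b hb j j' h
    · have : B y b u = ∅ := by
        apply filter_eq_empty_iff.2
        intro j _ h
        exact hb h.1
      rw [this]; simp
  have hpath : ∀ y, (∑ u ∈ U, (nb G y ∩ nb G u).card) ≤ 2 * d := fun y =>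
    (UCL.paths G U hU2 y).trans (Nat.mul_le_mul_left 2 (hdeg y))
  have hUc : ∀ y, (Uy y).card ≤ 2 * d := by
    intro y
    refine le_trans ?_ (hpath y)
    rw [card_eq_sum_ones]
    calc (∑ x ∈ Uy y, 1) ≤ ∑ u ∈ Uy y, (nb G y ∩ nb G u).card := by
          apply Finset.sum_le_sum
          intro u hu
          exact card_pos.2 (mem_filter.1 hu).2
      _ ≤ _ := Finset.sum_le_sum_of_subset (filter_subset _ _)
  set W : ℝ := (2 * d * d) * Real.exp (4 / c - δ * d / 2) with hW
  suffices hkey : ∃ f : V → Fin D, ∀ y, ∀ b,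
      (((nb G y).filter (fun x => ∃ u ∈ U, b ∈ I u ∧ val u (f u) b = x)).card : ℝ) ≤ δ * d by
    obtain ⟨f, hf⟩ := hkey
    refine ⟨fun u b => val u (f u) b, ?_, ?_, fun y b => hf y b⟩
    · intro u hu b hb
      exact (hL u b hu hb).1 (hval1 u hu (f u) b hb).2
    · intro u hu b hb b' hb' h
      exact hval2 u hu (f u) b (by simpa using hb) b' (by simpa using hb') h
  refine Pool.Agent.Work.MP_db9399_all.stmt_LLLI V D V T Uy (fun _ => W)
    (fun y f => ∀ b,
      (((nb G y).filter (fun x => ∃ u ∈ U, b ∈ I u ∧ val u (f u) b = x)).card : ℝ) ≤ δ * d)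
    hD0 hT0.le hT1 ?_ ?_
  · intro y
    refine ⟨ULift.{u} {b : Fin k // ∃ u ∈ Uy y, b ∈ I u}, inferInstance, fun _ => Uy y,
      fun b f => δ * d < (((Uy y).filter (fun u => f u ∈ B y b.down.1 u)).card : ℝ),
      ?_, ?_, ?_, ?_, ?_⟩
    · intro b f f' hff
      have : (Uy y).filter (fun u => f u ∈ B y b.down.1 u) =
          (Uy y).filter (fun u => f' u ∈ B y b.down.1 u) := by
        apply filter_congr
        intro u hu
        rw [hff u hu]
      simp only [this]
    · intro b
      obtain ⟨u, hu, -⟩ := b.down.2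
      exact ⟨u, hu⟩
    · intro b
      exact Subset.rfl
    · have hterm : ∀ b : ULift.{u} {b : Fin k // ∃ u ∈ Uy y, b ∈ I u},
          pr (fun f : V → Fin D =>
            δ * d < (((Uy y).filter (fun u => f u ∈ B y b.down.1 u)).card : ℝ)) *
            Real.exp (2 * T * ((Uy y).card : ℝ)) ≤ Real.exp (4 / c - δ * d / 2) := by
        intro b
        have h1 := Pool.Agent.Work.MP_db9399_exp.helper59.UCOLAux.chern D hD0 (Uy y)
          (B y b.down.1) (2 / c) (δ * d) (by
          have e1 : (∑ u ∈ Uy y, (B y b.down.1 u).card) ≤ 2 * d := by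
            refine le_trans ?_ (hpath y)
            calc (∑ u ∈ Uy y, (B y b.down.1 u).card) ≤ ∑ u ∈ Uy y, (nb G y ∩ nb G u).card :=
                  Finset.sum_le_sum (fun u hu => hBc y _ u (mem_filter.1 hu).1)
              _ ≤ _ := Finset.sum_le_sum_of_subset (filter_subset _ _)
          have e2 : (∑ u ∈ Uy y, ((B y b.down.1 u).card : ℝ)) ≤ 2 * d := by exact_mod_cast e1
          refine e2.trans ?_
          rw [div_mul_eq_mul_div, le_div_iff₀ hc]
          linarith)
        have h2 : Real.exp (2 * T * ((Uy y).card : ℝ)) ≤ Real.exp (δ * d / 2) := by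
          apply Real.exp_le_exp.2
          have e1 : ((Uy y).card : ℝ) ≤ 2 * d := by exact_mod_cast hUc y
          calc 2 * T * ((Uy y).card : ℝ) ≤ 2 * T * (2 * d) :=
                mul_le_mul_of_nonneg_left e1 (by linarith)
            _ ≤ δ * d / 2 := by nlinarith
        calc _ ≤ Real.exp (2 * (2 / c) - δ * d) * Real.exp (δ * d / 2) :=
              mul_le_mul h1 h2 (Real.exp_pos _).le (Real.exp_pos _).le
          _ = Real.exp (4 / c - δ * d / 2) := by
              rw [← Real.exp_add]; congr 1; ring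
      refine (Finset.sum_le_card_nsmul _ _ _ (fun b _ => hterm b)).trans ?_
      rw [nsmul_eq_mul, hW]
      apply mul_le_mul_of_nonneg_right _ (Real.exp_pos _).le
      have e1 : (univ : Finset (ULift.{u} {b : Fin k // ∃ u ∈ Uy y, b ∈ I u})).card ≤
          ((Uy y).biUnion I).card := by
        rw [card_univ, Fintype.card_ulift, ← Fintype.card_coe ((Uy y).biUnion I)]
        exact Fintype.card_le_of_injective
          (fun b => ⟨b.1, mem_biUnion.2 (by
            obtain ⟨u, hu, hb⟩ := b.2
            exact ⟨u, hu, hb⟩)⟩) (by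
          intro a b h
          exact Subtype.ext (by simpa using h))
      have e2 : ((Uy y).biUnion I).card ≤ 2 * d * d := by
        refine (card_biUnion_le_card_mul _ _ d (fun u hu => hI u (mem_filter.1 hu).1)).trans ?_
        exact Nat.mul_le_mul_right d (hUc y)
      have e3 : (((univ : Finset (ULift.{u} {b : Fin k // ∃ u ∈ Uy y, b ∈ I u})).card : ℕ) : ℝ) ≤
          ((2 * d * d : ℕ) : ℝ) := by exact_mod_cast e1.trans e2
      push_cast at e3
      exact e3
    · intro f hf b
      have hle : ((nb G y).filter (fun x => ∃ u ∈ U, b ∈ I u ∧ val u (f u) b = x)).card ≤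
          ((Uy y).filter (fun u => f u ∈ B y b u)).card := by
        have h1 : (nb G y).filter (fun x => ∃ u ∈ U, b ∈ I u ∧ val u (f u) b = x) ⊆
            ((Uy y).filter (fun u => f u ∈ B y b u)).image (fun u => val u (f u) b) := by
          intro x hx
          rw [mem_filter] at hx
          obtain ⟨hx1, u, hu, hb, hv⟩ := hx
          rw [mem_image]
          refine ⟨u, ?_, hv⟩
          rw [mem_filter]
          have hxu : x ∈ nb G u := by rw [← hv]; exact hvalnb u hu (f u) b hb
          refine ⟨mem_filter.2 ⟨hu, ⟨x, mem_inter.2 ⟨hx1, hxu⟩⟩⟩, ?_⟩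
          rw [hB]
          simp only [mem_filter, mem_univ, true_and]
          rw [hv]
          exact ⟨hb, hx1⟩
        exact (card_le_card h1).trans card_image_le
      by_cases hex : ∃ u ∈ Uy y, b ∈ I u
      · have h2 := hf ⟨⟨b, hex⟩⟩
        simp only [not_lt] at h2
        exact le_trans (by exact_mod_cast hle) h2
      · have he : (nb G y).filter (fun x => ∃ u ∈ U, b ∈ I u ∧ val u (f u) b = x) = ∅ := by
          apply filter_eq_empty_iff.2
          rintro x hx ⟨u, hu, hb, hv⟩
          apply hex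
          have hxu : x ∈ nb G u := by rw [← hv]; exact hvalnb u hu (f u) b hb
          exact ⟨u, mem_filter.2 ⟨hu, ⟨x, mem_inter.2 ⟨hx, hxu⟩⟩⟩, hb⟩
        rw [he]
        simp only [card_empty, Nat.cast_zero]
        positivity
  · intro u
    rw [Finset.sum_const, nsmul_eq_mul]
    have hcnt : (univ.filter (fun y => u ∈ Uy y)).card ≤ d * d := by
      have h1 : univ.filter (fun y => u ∈ Uy y) ⊆ (nb G u).biUnion (fun w => nb G w) := by
        intro y hy
        simp only [mem_filter, mem_univ, true_and, hUy] at hy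
        obtain ⟨hu, w, hw⟩ := hy
        rw [mem_inter, mem_nb, mem_nb] at hw
        rw [mem_biUnion]
        exact ⟨w, mem_nb.2 hw.2, mem_nb.2 hw.1.symm⟩
      refine (card_le_card h1).trans ((card_biUnion_le_card_mul _ _ d (fun w _ => hdeg w)).trans ?_)
      exact Nat.mul_le_mul_right d (hdeg u)
    have hcnt' : ((univ.filter (fun y => u ∈ Uy y)).card : ℝ) ≤ d * d := by exact_mod_cast hcnt
    have hW0 : 0 ≤ W := by rw [hW]; positivity
    refine (mul_le_mul_of_nonneg_right hcnt' hW0).trans ?_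
    rw [hW, sub_eq_add_neg, Real.exp_add, Real.exp_neg]
    have hx : (0 : ℝ) ≤ δ * d / 2 := by positivity
    have hexp : (δ * d / 2) ^ 5 / 120 ≤ Real.exp (δ * d / 2) := by
      have := Real.pow_div_factorial_le_exp (δ * d / 2) hx 5
      norm_num [Nat.factorial] at this ⊢
      exact this
    have hpos : (0 : ℝ) < (δ * d / 2) ^ 5 / 120 := by positivity
    have hinv : (Real.exp (δ * d / 2))⁻¹ ≤ ((δ * d / 2) ^ 5 / 120)⁻¹ :=
      inv_anti₀ hpos hexp
    have hd0 : (0 : ℝ) < d := by linarith
    calc (d : ℝ) * d * (2 * d * d * (Real.exp (4 / c) * (Real.exp (δ * d / 2))⁻¹))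
        ≤ (d : ℝ) * d * (2 * d * d * (Real.exp (4 / c) * ((δ * d / 2) ^ 5 / 120)⁻¹)) := by
          gcongr
      _ = 7680 * Real.exp (4 / c) / (δ ^ 5 * d) := by
          field_simp
          ring
      _ ≤ T := by
          rw [div_le_iff₀ (by positivity)]
          rw [hK, div_le_iff₀ (by positivity)] at hdK
          linarith

end Pool.Agent.Work.MP_db9399_bg.helper99
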