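import Pool.Agent.Work.MP_db9399_bg.Base
import Pool.Agent.Work.MP_db9399_exp_helper99.VCX

/-!
# MP_db9399, THEOREM BIG, block VCOL (helper99): the vertex colouring
-/

set_option autoImplicit false

namespace Pool.Agent.Work.MP_db9399_bg.helper99

open Finset Classical
open Pool.Agent.Work.MP_db9399_all (nb mis)
open Pool.Agent.Work.MP_db9399_px (LWalk hit ee)
open Pool.Agent.Work.MP_db9399_bg

universe u

namespace VCOL

section
variable {V : Type u} [Fintype V]

/-- number of missing pairs -/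
theorem mis_ge (G : SimpleGraph V) (A : Finset V) :
    (A.card : ℝ) ^ 2 ≤ (mis G A).card + A.card + ee G A A := by
  have h1 : A ×ˢ A ⊆ mis G A ∪ (A.image (fun a => (a, a)) ∪
      A.biUnion (fun a => (nb G a ∩ A).image (fun b => (a, b)))) := by
    rintro ⟨a, b⟩ hab
    rw [mem_product] at hab
    rw [mem_union, mem_union]
    by_cases h2 : a = b
    · subst h2
      exact Or.inr (Or.inl (mem_image.2 ⟨a, hab.1, rfl⟩))
    · by_cases h3 : G.Adj a b
      · refine Or.inr (Or.inr (mem_biUnion.2 ⟨a, hab.1, mem_image.2 ⟨b, ?_, rfl⟩⟩))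
        exact mem_inter.2 ⟨mem_nb.2 h3, hab.2⟩
      · refine Or.inl ?_
        unfold mis
        exact mem_filter.2 ⟨mem_product.2 hab, h2, h3⟩
  have h2 := (card_le_card h1).trans ((card_union_le _ _).trans
    (Nat.add_le_add_left (card_union_le _ _) _))
  have h3 : (A.biUnion (fun a => (nb G a ∩ A).image (fun b => (a, b)))).card ≤
      ∑ a ∈ A, (nb G a ∩ A).card :=
    card_biUnion_le.trans (sum_le_sum fun a _ => card_image_le)
  have h4 : (A.image (fun a => (a, a))).card ≤ A.card := card_image_le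
  rw [card_product] at h2
  have h5 : A.card * A.card ≤ (mis G A).card + (A.card + ∑ a ∈ A, (nb G a ∩ A).card) := by omega
  have h6 : ((A.card * A.card : ℕ) : ℝ) ≤
      (((mis G A).card + (A.card + ∑ a ∈ A, (nb G a ∩ A).card) : ℕ) : ℝ) := by exact_mod_cast h5
  unfold ee
  push_cast at h6
  nlinarith

theorem ee_mono (G : SimpleGraph V) {A B : Finset V} (h : A ⊆ B) : ee G A A ≤ ee G B B := by
  unfold ee
  calc ∑ a ∈ A, ((nb G a ∩ A).card : ℝ) ≤ ∑ a ∈ A, ((nb G a ∩ B).card : ℝ) :=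
        sum_le_sum fun a _ => by exact_mod_cast card_le_card (inter_subset_inter_left h)
    _ ≤ _ := sum_le_sum_of_subset_of_nonneg h fun a _ _ => Nat.cast_nonneg _

/-- edges inside a neighbourhood -/
theorem ee_nb {g ε : ℝ} {G : SimpleGraph V} {d : ℕ} (hg : 0 < g) (h : BG g ε G d) (hg1 : g ≤ 1)
    (v : V) : ee G (nb G v) (nb G v) ≤ (1 - g) * (d : ℝ) ^ 2 := by
  have hd : ((nb G v).card : ℝ) ≤ d := by exact_mod_cast h.deg v
  have hd0 : (0 : ℝ) ≤ d := Nat.cast_nonneg _
  have h1 := h.nsc (nb G v) (by nlinarith)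
  have h2 : ∀ u : V, ((nb G u ∩ nb G v).card : ℝ) = (nb G u).card - (nb G u \ nb G v).card := by
    intro u
    have := card_sdiff_add_card_inter (nb G u) (nb G v)
    have h3 : (((nb G u \ nb G v).card + (nb G u ∩ nb G v).card : ℕ) : ℝ) = (nb G u).card := by
      exact_mod_cast this
    push_cast at h3
    linarith
  unfold ee
  simp only [h2]
  rw [sum_sub_distrib]
  have h3 : ∑ u ∈ nb G v, ((nb G u).card : ℝ) ≤ ∑ _u ∈ nb G v, (d : ℝ) :=
    sum_le_sum fun u _ => by exact_mod_cast h.deg u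
  rw [sum_const, nsmul_eq_mul] at h3
  have h4 : (nb G v).card * (d : ℝ) - g * d * (nb G v).card ≤ (1 - g) * (d : ℝ) ^ 2 := by
    have : (0 : ℝ) ≤ (1 - g) * d := mul_nonneg (by linarith) hd0
    nlinarith
  linarith

end

/-- the numerical inequality -/
theorem num {g p σ ε0 D a B E M : ℝ} (hg : 0 < g) (hg1 : g ≤ 1 / 10) (hp : 0 < p) (hp1 : p ≤ 1)
    (hσ0 : 0 ≤ σ) (hσ : σ ≤ p ^ 2 * g / 20) (hε0 : 0 ≤ ε0) (hε : ε0 ≤ g / 20)
    (hD : 120 / (g * p ^ 2) ≤ D) (hD2 : 100 / p ≤ D) (ha : (p * (1 - ε0) - σ) * D - 2 ≤ a)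
    (haB : a ≤ B) (hB : B ≤ (p + σ) * D) (hE : E ≤ p ^ 2 * ((1 - g) * D ^ 2) + σ * D ^ 2)
    (hM : a ^ 2 ≤ M + a + E) : g / 3 * ((p + σ) * D + 1) ^ 2 ≤ M := by
  have hgp : 0 < g * p ^ 2 := by positivity
  have hD120 : 120 ≤ D * (g * p ^ 2) := by rwa [div_le_iff₀ hgp] at hD
  have hD100 : 100 ≤ D * p := by rwa [div_le_iff₀ hp] at hD2
  have hD0 : 0 < D := by
    by_contra h
    have : D * p ≤ 0 := mul_nonpos_of_nonpos_of_nonneg (not_lt.mp h) hp.le
    linarith
  have hp2 : p ^ 2 ≤ p := by nlinarith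
  have hσp : σ ≤ p / 200 := by
    have h1 : p ^ 2 * g ≤ p * (1 / 10) := mul_le_mul hp2 hg1 hg.le hp.le
    linarith
  -- lower bound for `a`
  have ha0 : 0 ≤ (p * (1 - ε0) - σ) * D - 2 := by
    have h0 : p * ε0 ≤ p * (1 / 200) := mul_le_mul_of_nonneg_left (by linarith) hp.le
    have h1 : p / 2 ≤ p * (1 - ε0) - σ := by linarith
    have h2 : p / 2 * D ≤ (p * (1 - ε0) - σ) * D := mul_le_mul_of_nonneg_right h1 hD0.le
    linarith
  have ha2 : ((p * (1 - ε0) - σ) * D - 2) ^ 2 ≤ a ^ 2 := pow_le_pow_left₀ ha0 ha 2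
  have h1 : p ^ 2 * D ^ 2 * (1 - 2 * ε0) - 2 * p * D * (σ * D + 2) ≤
      ((p * (1 - ε0) - σ) * D - 2) ^ 2 := by
    have e1 : ((p * (1 - ε0) - σ) * D - 2) ^ 2 = (p * D * (1 - ε0)) ^ 2 -
        2 * (p * D * (1 - ε0)) * (σ * D + 2) + (σ * D + 2) ^ 2 := by ring
    rw [e1]
    have e2 : 0 ≤ (σ * D + 2) ^ 2 := sq_nonneg _
    have e3 : p ^ 2 * D ^ 2 * (1 - 2 * ε0) ≤ (p * D * (1 - ε0)) ^ 2 := by
      have : (p * D * (1 - ε0)) ^ 2 = p ^ 2 * D ^ 2 * (1 - 2 * ε0) + p ^ 2 * D ^ 2 * ε0 ^ 2 := by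
        ring
      rw [this]
      have : 0 ≤ p ^ 2 * D ^ 2 * ε0 ^ 2 := by positivity
      linarith
    have e4 : 2 * (p * D * (1 - ε0)) * (σ * D + 2) ≤ 2 * p * D * (σ * D + 2) := by
      have h5 : 0 ≤ 2 * p * D * (σ * D + 2) := by positivity
      have h6 : 0 ≤ ε0 * (2 * p * D * (σ * D + 2)) := mul_nonneg hε0 h5
      have h7 : 2 * (p * D * (1 - ε0)) * (σ * D + 2) =
        2 * p * D * (σ * D + 2) - ε0 * (2 * p * D * (σ * D + 2)) := by ring
      linarith
    linarith
  -- collect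
  have hpD : 0 < p ^ 2 * D ^ 2 := by positivity
  have hgpD : 0 < g * (p ^ 2 * D ^ 2) := by positivity
  have t1 : 2 * ε0 * (p ^ 2 * D ^ 2) ≤ g / 10 * (p ^ 2 * D ^ 2) :=
    mul_le_mul_of_nonneg_right (by linarith) hpD.le
  have t2 : σ * D ^ 2 ≤ g / 20 * (p ^ 2 * D ^ 2) := by
    have : σ * D ^ 2 ≤ (p ^ 2 * g / 20) * D ^ 2 := mul_le_mul_of_nonneg_right hσ (by positivity)
    calc σ * D ^ 2 ≤ _ := this
      _ = _ := by ring
  have t3 : p * (σ * D ^ 2) ≤ 1 * (σ * D ^ 2) :=
    mul_le_mul_of_nonneg_right hp1 (by positivity)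
  have t4 : D ≤ g / 120 * (p ^ 2 * D ^ 2) := by
    have h5 : 120 * D ≤ D * (g * p ^ 2) * D := mul_le_mul_of_nonneg_right hD120 hD0.le
    have h6 : D * (g * p ^ 2) * D = g * (p ^ 2 * D ^ 2) := by ring
    rw [h6] at h5
    linarith
  have t5 : p * D ≤ 1 * D := mul_le_mul_of_nonneg_right hp1 hD0.le
  have t6 : (p + σ) * D ≤ 2 * D := mul_le_mul_of_nonneg_right (by linarith) hD0.le
  have hMlow : 6 / 10 * g * (p ^ 2 * D ^ 2) ≤ M := by
    have haB2 : a ≤ 2 * D := haB.trans (hB.trans t6)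
    have u1 : p ^ 2 * D ^ 2 * (1 - 2 * ε0) - 2 * p * D * (σ * D + 2) ≤ M + a + E :=
      h1.trans (ha2.trans hM)
    have u2 : p ^ 2 * D ^ 2 * (1 - 2 * ε0) - 2 * p * D * (σ * D + 2) =
        p ^ 2 * D ^ 2 - 2 * ε0 * (p ^ 2 * D ^ 2) - 2 * (p * (σ * D ^ 2)) - 4 * (p * D) := by ring
    have u3 : p ^ 2 * ((1 - g) * D ^ 2) + σ * D ^ 2 =
        p ^ 2 * D ^ 2 - g * (p ^ 2 * D ^ 2) + σ * D ^ 2 := by ring
    rw [u2] at u1
    rw [u3] at hE
    linarith
  have hs : (p + σ) * D + 1 ≤ 102 / 100 * (p * D) := by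
    have h5 : σ * D ≤ p / 200 * D := mul_le_mul_of_nonneg_right hσp hD0.le
    linarith
  have hs0 : 0 ≤ (p + σ) * D + 1 := by positivity
  have hs2 : ((p + σ) * D + 1) ^ 2 ≤ (102 / 100 * (p * D)) ^ 2 := pow_le_pow_left₀ hs0 hs 2
  calc g / 3 * ((p + σ) * D + 1) ^ 2 ≤ g / 3 * (102 / 100 * (p * D)) ^ 2 :=
        mul_le_mul_of_nonneg_left hs2 (by linarith)
    _ = (g / 3 * (102 / 100) ^ 2) * (p ^ 2 * D ^ 2) := by ring
    _ ≤ (6 / 10 * g) * (p ^ 2 * D ^ 2) := by
        refine mul_le_mul_of_nonneg_right ?_ hpD.le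
        linarith
    _ ≤ M := hMlow

end VCOL

open VCOL in
/-- **VCOL** -/
theorem stmt_VCOL : Stmt_VCOL.{u} := by
  intro g hg hg1
  obtain ⟨κX, Δ0, hκ, hκ1, hvcx⟩ :=
    Pool.Agent.Work.MP_db9399_exp.helper99.stmt_VCX.{u} (g / 3) (by positivity)
  refine ⟨κX / 2, by positivity, by linarith, ?_⟩
  intro l m r K K1
  set p : ℝ := 1 / ((2 * (m : ℝ) + 1) * ((r : ℝ) + 1)) with hp
  have hp0 : 0 < p := by positivity
  have hp1 : p ≤ 1 := by
    rw [hp, div_le_one (by positivity)]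
    have h1 : (1 : ℝ) ≤ 2 * (m : ℝ) + 1 := by
      have : (0 : ℝ) ≤ m := Nat.cast_nonneg _
      linarith
    have h2 : (1 : ℝ) ≤ (r : ℝ) + 1 := by
      have : (0 : ℝ) ≤ r := Nat.cast_nonneg _
      linarith
    nlinarith
  set σ : ℝ := min (p ^ 2 * g / 20) (κX * p / 4) with hσ
  have hσ0 : 0 < σ := lt_min (by positivity) (by positivity)
  refine ⟨σ, g / 20, ⌈120 / (g * p ^ 2) + 100 / p + Δ0 / p + 4 / (κX * p)⌉₊, hσ0,
    by positivity, ?_⟩
  intro V _ G d k w c1 UH c0 EH tu lab e pal hd hBG hLab hH he hpal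
  have hdR : 120 / (g * p ^ 2) + 100 / p + Δ0 / p + 4 / (κX * p) ≤ d := by
    refine (Nat.le_ceil _).trans ?_
    exact_mod_cast hd
  have q1 : 0 < 120 / (g * p ^ 2) := by positivity
  have q2 : 0 < 100 / p := by positivity
  have q3 : 0 ≤ (Δ0 : ℝ) / p := by positivity
  have q4 : 0 < 4 / (κX * p) := by positivity
  have d1 : 120 / (g * p ^ 2) ≤ d := by linarith
  have d2 : 100 / p ≤ d := by linarith
  have d3 : (Δ0 : ℝ) ≤ d * p := by
    have : (Δ0 : ℝ) / p ≤ d := by linarith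
    rwa [div_le_iff₀ hp0] at this
  have d4 : 4 ≤ d * (κX * p) := by
    have : 4 / (κX * p) ≤ d := by linarith
    rwa [div_le_iff₀ (by positivity)] at this
  set Δ : ℕ := ⌈(p + σ) * d⌉₊ with hΔ
  have hpd0 : 0 ≤ (p + σ) * d := by positivity
  have hΔ1 : (p + σ) * d ≤ Δ := Nat.le_ceil _
  have hΔ2 : (Δ : ℝ) ≤ (p + σ) * d + 1 := (Nat.ceil_lt_add_one hpd0).le
  set S : Type := ZMod (2 * m + 1) × Fin (r + 1) with hS
  set sub : V → S := fun v => ((lab v).1, (lab v).2.2.1) with hsub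
  set P : S → Finset (Lbl l m r K K1) := fun s => bx {s.1} univ {s.2} univ univ univ with hP
  have hden : ∀ s, den (P s) = p := by
    intro s
    simp only [hP]
    rw [den_bx, card_univ_zmod, card_univ_zmod, card_univ_fin, card_univ_fin,
      Finset.card_singleton, Finset.card_singleton, hp]
    have h1 : (2 * (m : ℝ) + 1) ≠ 0 := by positivity
    have h2 : (2 * (l : ℝ) + 1) ≠ 0 := by positivity
    have h3 : ((r : ℝ) + 1) ≠ 0 := by positivity
    have h4 : ((K : ℝ) + 1) ≠ 0 := by positivity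
    have h5 : ((K1 : ℝ) + 1) ≠ 0 := by positivity
    push_cast
    field_simp
  have hcl : ∀ v s, v ∈ cl lab (P s) ↔ sub v = s := by
    intro v s
    rw [mem_cl]
    simp only [hP, mem_bx, Finset.mem_singleton, Finset.mem_univ, true_and, and_true, hsub]
    constructor
    · rintro ⟨h1, h2⟩
      exact Prod.ext h1 h2
    · intro h
      rw [← h]
      exact ⟨rfl, rfl⟩
  set A : V → S → Finset V := fun v s => (nb G v).filter (fun w => w ∉ UH ∧ sub w = s) with hA
  have hAB : ∀ v s, A v s ⊆ nb G v ∩ cl lab (P s) := by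
    intro v s w hw
    simp only [hA, mem_filter] at hw
    exact mem_inter.2 ⟨hw.1, (hcl w s).2 hw.2.2⟩
  have hBA : ∀ v s, (nb G v ∩ cl lab (P s)).card ≤ (A v s).card + 2 := by
    intro v s
    have h1 : nb G v ∩ cl lab (P s) ⊆ A v s ∪ (nb G v ∩ UH) := by
      intro w hw
      rw [mem_inter, hcl] at hw
      rw [mem_union]
      by_cases hwU : w ∈ UH
      · exact Or.inr (mem_inter.2 ⟨hw.1, hwU⟩)
      · refine Or.inl ?_
        simp only [hA, mem_filter]
        exact ⟨hw.1, hwU, hw.2⟩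
    have h2 := (card_le_card h1).trans (card_union_le _ _)
    have h3 := hH.two v
    omega
  have hdeg : ∀ v : V, ((nb G v).card : ℝ) ≤ d := fun v => by exact_mod_cast hBG.deg v
  have hBup : ∀ v s, ((nb G v ∩ cl lab (P s)).card : ℝ) ≤ (p + σ) * d := by
    intro v s
    have h1 := (abs_le.mp (hLab.deg v (P s))).2
    rw [hden] at h1
    have h2 := mul_le_mul_of_nonneg_left (hdeg v) hp0.le
    linarith
  obtain ⟨c, hc1, hc2, hc3⟩ := hvcx G UH Δ k (fun u => {c0 u}) S sub
    (fun s => (univ.filter (fun y => pal y = s.2)).image (fun y => e (s.1, y)))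
    (by
      have : (Δ0 : ℝ) ≤ Δ := by nlinarith
      exact_mod_cast this)
    (by
      intro v s
      have h1 : ((A v s).card : ℝ) ≤ Δ :=
        (by exact_mod_cast card_le_card (hAB v s) :
          ((A v s).card : ℝ) ≤ (nb G v ∩ cl lab (P s)).card).trans ((hBup v s).trans hΔ1)
      have h2 : (A v s).card ≤ Δ := by exact_mod_cast h1
      convert h2)
    (by
      intro v s
      have hlow : (p * (1 - g / 20) - σ) * d - 2 ≤ ((A v s).card : ℝ) := by
        have h1 := (abs_le.mp (hLab.deg v (P s))).1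
        rw [hden] at h1
        have h2 := mul_le_mul_of_nonneg_left (hBG.low v) hp0.le
        have h3 : ((nb G v ∩ cl lab (P s)).card : ℝ) ≤ (A v s).card + 2 := by
          exact_mod_cast hBA v s
        nlinarith
      have hsps := hLab.sps v (P s)
      rw [hden] at hsps
      have h1 := num (g := g) (p := p) (σ := σ) (ε0 := g / 20) (D := (d : ℝ))
        (a := ((A v s).card : ℝ)) (B := ((nb G v ∩ cl lab (P s)).card : ℝ))
        (E := ee G (A v s) (A v s)) (M := ((mis G (A v s)).card : ℝ)) hg hg1 hp0 hp1 hσ0.le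
        (min_le_left _ _) (by positivity) le_rfl d1 d2 hlow
        (by exact_mod_cast card_le_card (hAB v s)) (hBup v s)
        ((ee_mono G (hAB v s)).trans (hsps.trans (by
          have := ee_nb hg hBG (by linarith) v
          have h2 := mul_le_mul_of_nonneg_left this (sq_nonneg p)
          linarith))) (mis_ge G (A v s))
      have h2 : g / 3 * (Δ : ℝ) ^ 2 ≤ g / 3 * ((p + σ) * d + 1) ^ 2 :=
        mul_le_mul_of_nonneg_left (pow_le_pow_left₀ (Nat.cast_nonneg _) hΔ2 2) (by positivity)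
      have h3 : g / 3 * (Δ : ℝ) ^ 2 ≤ ((mis G (A v s)).card : ℝ) := h2.trans h1
      convert h3)
    (by intro u _; simp)
    (by
      intro v
      have h1 : univ.filter (fun u => u ∈ UH ∧ G.Adj v u) = nb G v ∩ UH := by
        ext u
        simp only [mem_filter, mem_univ, true_and, mem_inter, mem_nb]
        exact and_comm
      rw [h1]
      exact hH.two v)
    (by
      intro s
      have h1 : ((univ.filter (fun y => pal y = s.2)).image (fun y => e (s.1, y))).card =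
          (univ.filter (fun y => pal y = s.2)).card := by
        apply card_image_of_injective
        intro y y' h
        have := he h
        exact (Prod.mk.injEq _ _ _ _ ▸ this : _ ∧ _).2
      rw [h1]
      have h2 := hpal s.2
      have h3 : (1 - κX / 2) * (p * d) ≤ ((univ.filter (fun y => pal y = s.2)).card : ℝ) := by
        have h4 : 0 < (2 * (m : ℝ) + 1) * ((r : ℝ) + 1) := by positivity
        have h5 : (1 - κX / 2) * (p * d) = (1 - κX / 2) * d / ((2 * (m : ℝ) + 1) * ((r : ℝ) + 1)) := by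
          rw [hp]; ring
        rw [h5, div_le_iff₀ h4]
        linarith
      refine le_trans ?_ h3
      have h6 : σ ≤ κX * p / 4 := min_le_right _ _
      have hd0 : (0 : ℝ) ≤ d := Nat.cast_nonneg _
      have h7 : σ * d ≤ κX * p / 4 * d := mul_le_mul_of_nonneg_right h6 hd0
      have h8 : (1 - κX) * Δ ≤ (1 - κX) * ((p + σ) * d + 1) :=
        mul_le_mul_of_nonneg_left hΔ2 (by linarith)
      nlinarith)
    (by
      intro s s' hss
      rw [Finset.disjoint_left]
      intro x hx hx'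
      obtain ⟨y, hy, rfl⟩ := mem_image.1 hx
      obtain ⟨y', hy', h⟩ := mem_image.1 hx'
      rw [mem_filter] at hy hy'
      have h1 := he h
      rw [Prod.mk.injEq] at h1
      apply hss
      refine Prod.ext h1.1.symm ?_
      rw [← hy.2, ← hy'.2, h1.2])
  refine ⟨fun v => if v ∈ UH then c0 v else c v, ?_, ?_, ?_⟩
  · intro v hv
    simp only [if_pos hv]
  · intro v hv
    simp only [if_neg hv]
    obtain ⟨y, hy, hy'⟩ := mem_image.1 (hc1 v hv)
    exact ⟨y, hy'.symm, (mem_filter.1 hy).2⟩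
  · intro v v' hvv
    by_cases hv : v ∈ UH
    · by_cases hv' : v' ∈ UH
      · simp only [if_pos hv, if_pos hv']
        exact hH.cc v v' (hH.ind v hv v' hv' hvv)
      · simp only [if_pos hv, if_neg hv']
        have := hc3 v' hv' v hv hvv.symm
        intro h
        exact this (by rw [mem_singleton]; exact h.symm)
    · by_cases hv' : v' ∈ UH
      · simp only [if_neg hv, if_pos hv']
        have := hc3 v hv v' hv' hvv
        intro h
        exact this (by rw [mem_singleton]; exact h)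
      · simp only [if_neg hv, if_neg hv']
        exact hc2 v v' hv hv' hvv

end Pool.Agent.Work.MP_db9399_bg.helper99
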